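import Pool.Agent.H39.Newt2.Base

/-! # Module SUM of project NEWTON2: convergence of the lattice sums -/

set_option autoImplicit false

namespace Pool.Newt2

open MvPolynomial Pool.Agent.H39.MonoR Pool.Agent.H75.Mono Pool.Newt

/-- products of summable nonnegative functions are summable on the product space -/
theorem SUM_pi {σ α : Type} [Fintype σ] (g : σ → α → ℝ) (h0 : ∀ l v, 0 ≤ g l v)
    (hs : ∀ l, Summable (g l)) : Summable fun u : σ → α => ∏ l, g l (u l) := by
  classical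
  refine summable_of_sum_le (c := ∏ l, ∑' v, g l v) (fun u => Finset.prod_nonneg fun l _ => h0 l _)
    fun s => ?_
  have h1 : s ⊆ Fintype.piFinset fun l => s.image fun u => u l := by
    intro u hu
    rw [Fintype.mem_piFinset]
    intro l
    exact Finset.mem_image_of_mem _ hu
  calc ∑ u ∈ s, ∏ l, g l (u l)
      ≤ ∑ u ∈ Fintype.piFinset fun l => s.image fun u => u l, ∏ l, g l (u l) :=
        Finset.sum_le_sum_of_subset_of_nonneg h1 fun u _ _ => Finset.prod_nonneg fun l _ => h0 l _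
    _ = ∏ l, ∑ v ∈ s.image fun u => u l, g l v := by
        rw [Finset.prod_univ_sum]
    _ ≤ ∏ l, ∑' v, g l v := by
        refine Finset.prod_le_prod (fun l _ => Finset.sum_nonneg fun v _ => h0 l v) fun l _ => ?_
        exact (hs l).sum_le_tsum _ fun v _ => h0 l v

/-- one coordinate -/
theorem SUM_one {X : ℝ} (h0 : 0 < X) (h1 : X < 1) {c : ℕ} {φ : ℤ → ℝ} (h : Thr c φ) :
    Summable fun v : ℤ => |φ v| * X ^ v := by
  obtain ⟨B, hB0, hB⟩ := h.bdd
  have hinj : Function.Injective fun n : ℕ => (n : ℤ) - c := by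
    intro n m hnm
    have : (n : ℤ) - c = (m : ℤ) - c := hnm
    omega
  rw [← hinj.summable_iff]
  · have hg : Summable fun n : ℕ => B * X ^ (-(c : ℤ)) * X ^ n :=
      (summable_geometric_of_lt_one h0.le h1).mul_left _
    refine Summable.of_nonneg_of_le (fun n => ?_) (fun n => ?_) hg
    · show 0 ≤ |φ ((n : ℤ) - c)| * X ^ ((n : ℤ) - c)
      positivity
    · show |φ ((n : ℤ) - c)| * X ^ ((n : ℤ) - c) ≤ B * X ^ (-(c : ℤ)) * X ^ n
      have e1 : X ^ ((n : ℤ) - c) = X ^ (-(c : ℤ)) * X ^ n := by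
        rw [sub_eq_add_neg, zpow_add₀ h0.ne', zpow_natCast, mul_comm]
      rw [e1, mul_assoc]
      exact mul_le_mul_of_nonneg_right (hB _) (by positivity)
  · intro v hv
    have h2 : v < -(c : ℤ) := by
      by_contra h3
      apply hv
      refine ⟨(v + c).toNat, ?_⟩
      show (((v + c).toNat : ℕ) : ℤ) - c = v
      omega
    show |φ v| * X ^ v = 0
    rw [h.1 v h2, abs_zero, zero_mul]

theorem SUM_zpow {σ : Type} [Fintype σ] {X : ℝ} (h0 : 0 < X) (u : σ → ℤ) :
    X ^ (∑ l, u l) = ∏ l, X ^ (u l) := by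
  classical
  have : ∀ s : Finset σ, X ^ (∑ l ∈ s, u l) = ∏ l ∈ s, X ^ (u l) := by
    intro s
    induction s using Finset.induction_on with
    | empty => simp
    | insert l s hl ih => rw [Finset.sum_insert hl, Finset.prod_insert hl, zpow_add₀ h0.ne', ih]
  exact this Finset.univ

/-- SUM -/
theorem sSum : SSum := by
  intro σ I _ _ a X h0 h1 c φ hφ N
  have hb : ∀ i : I, ∃ B : ℝ, 0 ≤ B ∧ ∀ v, |φ (some (Sum.inr i)) v| ≤ B := fun i =>
    (hφ (some (Sum.inr i))).bdd
  choose B hB0 hB using hb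
  have hs : Summable fun u : σ → ℤ =>
      (|φ none N| * ∏ i, B i) * ∏ l, |φ (some (Sum.inl l)) (u l)| * X ^ (u l) :=
    (SUM_pi (fun l v => |φ (some (Sum.inl l)) v| * X ^ v) (fun l v => by positivity)
      (fun l => SUM_one h0 h1 (hφ _))).mul_left _
  refine Summable.of_norm_bounded hs fun u => ?_
  rw [Real.norm_eq_abs, abs_mul, abs_of_pos (zpow_pos h0 _), SUM_zpow h0, Fintype.prod_option,
    Fintype.prod_sum_type, abs_mul, abs_mul, Finset.abs_prod, Finset.abs_prod]
  show |φ none N| * ((∏ l, |φ (some (Sum.inl l)) (u l)|) *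
      ∏ i, |φ (some (Sum.inr i)) (lam a u N (some (Sum.inr i)))|) * (∏ l, X ^ (u l)) ≤
    (|φ none N| * ∏ i, B i) * ∏ l, |φ (some (Sum.inl l)) (u l)| * X ^ (u l)
  rw [Finset.prod_mul_distrib]
  have h2 : ∏ i, |φ (some (Sum.inr i)) (lam a u N (some (Sum.inr i)))| ≤ ∏ i, B i :=
    Finset.prod_le_prod (fun i _ => abs_nonneg _) fun i _ => hB i _
  have h3 : 0 ≤ |φ none N| * (∏ l, |φ (some (Sum.inl l)) (u l)|) * ∏ l, X ^ (u l) := by
    have : ∀ l : σ, 0 ≤ X ^ (u l) := fun l => (zpow_pos h0 _).le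
    exact mul_nonneg (mul_nonneg (abs_nonneg _) (Finset.prod_nonneg fun l _ => abs_nonneg _))
      (Finset.prod_nonneg fun l _ => this l)
  have h4 := mul_le_mul_of_nonneg_left h2 h3
  linarith [h4]

end Pool.Newt2
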